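import Pool.Agent.Run7.h245.SR.Iface2

/-!
# SR, piece HEN: Hensel's lemma for `R[X] / (f)` (helper576 for helper245's project SR)
-/

set_option autoImplicit false
set_option linter.all false

open Polynomial IsDedekindDomain NumberField Filter Topology WithZero
open scoped Classical

namespace Run7.h576.SR.HEN

open Pool.Agent.Run7.h245.SR

/-! ### Completeness of the ring of integers of the completion -/

theorem nonarch {L : Type*} [Field L] [Valued L (WithZero (Multiplicative ℤ))] :
    NonarchimedeanAddGroup L where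
  is_nonarchimedean U hU := by
    obtain ⟨γ, hγ⟩ := Valued.mem_nhds_zero.1 hU
    refine ⟨⟨Valuation.ltAddSubgroup (Valued.v (R := L)).restrict γ, ?_⟩, ?_⟩
    · exact Valued.isOpen_ball L γ.1
    · intro x hx
      exact hγ hx

section

variable {F : Type} [Field F] [NumberField F] (w : HeightOneSpectrum (𝓞 F))

theorem mem_pow_iff {ϖ : w.adicCompletionIntegers F} (hϖ : Irreducible ϖ) (n : ℕ)
    (x : w.adicCompletionIntegers F) :
    x ∈ IsLocalRing.maximalIdeal (w.adicCompletionIntegers F) ^ n ↔
      Valued.v (Γ₀ := WithZero (Multiplicative ℤ)) (x : w.adicCompletion F) ≤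
        Valued.v (Γ₀ := WithZero (Multiplicative ℤ)) ((ϖ : w.adicCompletion F) ^ n) := by
  rw [hϖ.maximalIdeal_eq, Ideal.span_singleton_pow, Ideal.mem_span_singleton,
    (HeightOneSpectrum.adicCompletionIntegers.integers (K := F) (v := w)).dvd_iff_le]
  rw [map_pow]
  rfl

theorem prec : IsPrecomplete (IsLocalRing.maximalIdeal (w.adicCompletionIntegers F))
    (w.adicCompletionIntegers F) := by
  obtain ⟨ϖ, hϖ⟩ := IsDiscreteValuationRing.exists_irreducible (w.adicCompletionIntegers F)
  have hϖ1 : Valued.v (Γ₀ := WithZero (Multiplicative ℤ)) (ϖ : w.adicCompletion F) < 1 := by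
    refine lt_of_le_of_ne ϖ.2 fun h => hϖ.not_isUnit ?_
    exact HeightOneSpectrum.adicCompletionIntegers.isUnit_iff_valued_eq_one.2 h
  constructor
  intro f hf
  have hf1 : ∀ {m n : ℕ}, m ≤ n → Valued.v (Γ₀ := WithZero (Multiplicative ℤ))
      ((f m : w.adicCompletion F) - (f n : w.adicCompletion F)) ≤
      Valued.v (Γ₀ := WithZero (Multiplicative ℤ)) ((ϖ : w.adicCompletion F) ^ m) := by
    intro m n hmn
    have h1 := hf hmn
    rw [SModEq.sub_mem, smul_eq_mul, Ideal.mul_top, mem_pow_iff w hϖ] at h1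
    exact h1
  set z : ℕ → w.adicCompletion F := fun n => (f n : w.adicCompletion F) with hz
  haveI := nonarch (L := w.adicCompletion F)
  have hlim : Tendsto (fun n => z (n + 1) - z n) atTop (𝓝 0) := by
    have h3 : Tendsto (fun n : ℕ => (ϖ : w.adicCompletion F) ^ n) atTop (𝓝 0) :=
      Valued.tendsto_zero_pow_of_v_lt_one hϖ1
    rw [(Valued.hasBasis_nhds_zero (w.adicCompletion F) _).tendsto_right_iff] at h3 ⊢
    intro γ hγ
    filter_upwards [h3 γ hγ] with n hn
    have h5 : Valued.v (Γ₀ := WithZero (Multiplicative ℤ)) (z (n + 1) - z n) ≤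
        Valued.v (Γ₀ := WithZero (Multiplicative ℤ)) ((ϖ : w.adicCompletion F) ^ n) := by
      rw [Valuation.map_sub_swap]
      exact hf1 (Nat.le_succ n)
    have h4 : (Valued.v (R := w.adicCompletion F)).restrict (z (n + 1) - z n) ≤
        (Valued.v (R := w.adicCompletion F)).restrict ((ϖ : w.adicCompletion F) ^ n) :=
      (Valuation.restrict_le_iff _).2 h5
    exact lt_of_le_of_lt h4 hn
  have hcau : CauchySeq z := NonarchimedeanAddGroup.cauchySeq_of_tendsto_sub_nhds_zero hlim
  obtain ⟨L, hL⟩ := cauchySeq_tendsto_of_complete hcau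
  have hclose : ∀ n, Valued.v (Γ₀ := WithZero (Multiplicative ℤ)) (z n - L) ≤
      Valued.v (Γ₀ := WithZero (Multiplicative ℤ)) ((ϖ : w.adicCompletion F) ^ n) := by
    intro n
    have hcl : IsClosed {y : w.adicCompletion F |
        (Valued.v (R := w.adicCompletion F)).restrict (z n - y) ≤
        (Valued.v (R := w.adicCompletion F)).restrict ((ϖ : w.adicCompletion F) ^ n)} := by
      have h7 := Valued.isClosed_closedBall (w.adicCompletion F)
        ((Valued.v (R := w.adicCompletion F)).restrict ((ϖ : w.adicCompletion F) ^ n))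
      exact h7.preimage (f := fun y : w.adicCompletion F => z n - y) (by fun_prop)
    have h8 := hcl.mem_of_tendsto hL (by
      filter_upwards [eventually_ge_atTop n] with m hm
      exact (Valuation.restrict_le_iff _).2 (hf1 hm))
    exact (Valuation.restrict_le_iff _).1 h8
  have hLint : Valued.v (Γ₀ := WithZero (Multiplicative ℤ)) L ≤ 1 := by
    have h1 := hclose 0
    rw [pow_zero, map_one] at h1
    have e : L = z 0 - (z 0 - L) := by ring
    rw [e]
    exact (Valuation.map_sub _ _ _).trans (max_le (f 0).2 h1)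
  refine ⟨⟨L, hLint⟩, fun n => ?_⟩
  rw [SModEq.sub_mem, smul_eq_mul, Ideal.mul_top, mem_pow_iff w hϖ]
  exact hclose n

end

/-! ### Finite free modules -/

theorem prec_basis {R M ι : Type*} [CommRing R] (I : Ideal R) [IsPrecomplete I R]
    [AddCommGroup M] [Module R M] [Fintype ι] (b : Module.Basis ι R M) : IsPrecomplete I M := by
  constructor
  intro f hf
  have h1 : ∀ i : ι, ∃ L : R, ∀ n, b.coord i (f n) ≡ L [SMOD (I ^ n • ⊤ : Submodule R R)] := by
    intro i
    apply IsPrecomplete.prec inferInstance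
    intro m n hmn
    have h2 := hf hmn
    rw [SModEq.sub_mem] at h2 ⊢
    rw [← map_sub]
    have h3 : b.coord i (f m - f n) ∈ (I ^ m • (⊤ : Submodule R M)).map (b.coord i) :=
      Submodule.mem_map_of_mem h2
    rw [Submodule.map_smul''] at h3
    exact Submodule.smul_mono le_rfl le_top h3
  choose L hL using h1
  refine ⟨∑ i, L i • b i, fun n => ?_⟩
  rw [SModEq.sub_mem]
  have h4 : f n - ∑ i, L i • b i = ∑ i, (b.coord i (f n) - L i) • b i := by
    simp only [sub_smul, Finset.sum_sub_distrib]
    congr 1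
    exact (b.sum_repr (f n)).symm
  rw [h4]
  refine Submodule.sum_mem _ fun i _ => ?_
  have h5 := hL i n
  rw [SModEq.sub_mem, smul_eq_mul, Ideal.mul_top] at h5
  exact Submodule.smul_mem_smul h5 Submodule.mem_top

theorem hen : S_HEN := by
  intro F _ _ w
  haveI := prec w
  haveI : IsAdicComplete (IsLocalRing.maximalIdeal (w.adicCompletionIntegers F))
    (w.adicCompletionIntegers F) := {}
  constructor
  · intro f hf
    have hb := (AdjoinRoot.powerBasis' hf).basis
    haveI : Module.Finite (w.adicCompletionIntegers F) (AdjoinRoot f) :=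
      Module.Finite.of_basis hb
    haveI h1 : IsPrecomplete ((IsLocalRing.maximalIdeal (w.adicCompletionIntegers F)).map
        (algebraMap (w.adicCompletionIntegers F) (AdjoinRoot f))) (AdjoinRoot f) :=
      IsPrecomplete.map_algebraMap_iff.2 (prec_basis _ hb)
    haveI h2 : IsHausdorff ((IsLocalRing.maximalIdeal (w.adicCompletionIntegers F)).map
        (algebraMap (w.adicCompletionIntegers F) (AdjoinRoot f))) (AdjoinRoot f) :=
      IsHausdorff.map_algebraMap_iff.2 inferInstance
    haveI h3 : IsAdicComplete ((IsLocalRing.maximalIdeal (w.adicCompletionIntegers F)).map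
        (algebraMap (w.adicCompletionIntegers F) (AdjoinRoot f))) (AdjoinRoot f) := {}
    infer_instance
  · constructor
    intro f hf a₀ h1 h2
    exact HenselianRing.is_henselian (I := IsLocalRing.maximalIdeal (w.adicCompletionIntegers F))
      f hf a₀ h1 (h2.map _)

/-! ### Quadratic equations -/

section quad

variable {R : Type} [CommRing R]

theorem mk_mem {𝔪 : Ideal R} {f : R[X]} (p : R[X]) (hp : ∀ i, p.coeff i ∈ 𝔪) :
    AdjoinRoot.mk f p ∈ 𝔪.map (algebraMap R (AdjoinRoot f)) := by
  have h1 : p ∈ Ideal.map (C : R →+* R[X]) 𝔪 := Ideal.mem_map_C_iff.2 hp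
  have h2 := Ideal.mem_map_of_mem (AdjoinRoot.mk f) h1
  rw [Ideal.map_map] at h2
  exact h2

theorem quad {𝔪 : Ideal R} {f : R[X]} [HenselianRing (AdjoinRoot f)
      (𝔪.map (algebraMap R (AdjoinRoot f)))] (b c y₀ u v v' : R[X])
    (h1 : ∀ i, (y₀ ^ 2 + b * y₀ + c - f * v).coeff i ∈ 𝔪)
    (h2 : ∀ i, ((2 * y₀ + b) * u - 1 - f * v').coeff i ∈ 𝔪) :
    ∃ y : R[X], f ∣ y ^ 2 + b * y + c := by
  rcases subsingleton_or_nontrivial (AdjoinRoot f) with hs | hs
  · refine ⟨0, ?_⟩
    rw [← AdjoinRoot.mk_eq_zero]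
    exact Subsingleton.elim _ _
  set m := AdjoinRoot.mk f with hm
  set P : (AdjoinRoot f)[X] := X ^ 2 + C (m b) * X + C (m c) with hP
  have hmon : P.Monic := by
    rw [hP]
    monicity!
  have hff : m f = 0 := AdjoinRoot.mk_self
  have hev : ∀ y : R[X], P.eval (m y) = m (y ^ 2 + b * y + c) := by
    intro y
    rw [hP]
    simp
  have hder : P.derivative.eval (m y₀) = m (2 * y₀ + b) := by
    rw [hP]
    simp
    rw [map_ofNat m 2]
    ring
  have h3 : P.eval (m y₀) ∈ 𝔪.map (algebraMap R (AdjoinRoot f)) := by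
    rw [hev]
    have h4 := mk_mem (f := f) _ h1
    rw [← hm, map_sub, map_mul, hff, zero_mul, sub_zero] at h4
    exact h4
  have h5 : IsUnit (Ideal.Quotient.mk (𝔪.map (algebraMap R (AdjoinRoot f)))
      (P.derivative.eval (m y₀))) := by
    rw [hder]
    apply IsUnit.of_mul_eq_one (Ideal.Quotient.mk _ (m u))
    rw [← map_mul, ← map_mul, ← map_one (Ideal.Quotient.mk _), Ideal.Quotient.eq]
    have h4 := mk_mem (f := f) _ h2
    rw [← hm, map_sub, map_mul m f, hff, zero_mul, sub_zero, map_sub, map_one] at h4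
    exact h4
  obtain ⟨a, ha, -⟩ := HenselianRing.is_henselian (I := 𝔪.map (algebraMap R (AdjoinRoot f)))
    P hmon (m y₀) h3 h5
  obtain ⟨y, rfl⟩ := AdjoinRoot.mk_surjective a
  refine ⟨y, ?_⟩
  rw [← AdjoinRoot.mk_eq_zero, ← hm, ← hev]
  exact ha

end quad

theorem henq (h : S_HEN) : S_HENQ := by
  intro F _ _ w f b c y₀ u v v' hf h1 h2
  haveI := (h F w).1 f hf
  exact quad b c y₀ u v v' h1 h2

theorem sq8 (h : S_HEN) : S_SQ8 := by
  intro F _ _ w h2 D hD
  haveI := (h F w).2
  obtain ⟨k, hk⟩ : ∃ k : ℕ, D = 1 + 8 * k := ⟨D / 8, by omega⟩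
  have h2m : (2 : w.adicCompletionIntegers F) ∈
      IsLocalRing.maximalIdeal (w.adicCompletionIntegers F) := by
    rw [IsLocalRing.mem_maximalIdeal, mem_nonunits_iff,
      HeightOneSpectrum.adicCompletionIntegers.isUnit_iff_valued_eq_one]
    intro h3
    have h4 : Valued.v (Γ₀ := WithZero (Multiplicative ℤ))
        (algebraMap F (w.adicCompletion F) ((2 : 𝓞 F) : F)) < 1 := by
      have h5 := HeightOneSpectrum.valuedAdicCompletion_eq_valuation' w ((2 : 𝓞 F) : F)
      have h6 : w.valuation F ((2 : 𝓞 F) : F) < 1 := (w.valuation_lt_one_iff_mem (K := F) 2).2 h2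
      rw [← h5] at h6
      exact h6
    have h7 : algebraMap F (w.adicCompletion F) ((2 : 𝓞 F) : F) =
        ((2 : w.adicCompletionIntegers F) : w.adicCompletion F) := by
      have e1 : ((2 : 𝓞 F) : F) = 2 := map_ofNat (algebraMap (𝓞 F) F) 2
      rw [e1, map_ofNat]
      rfl
    rw [h7, h3] at h4
    exact lt_irrefl _ h4
  have hmon : (X ^ 2 + X + C (-(2 * (k : w.adicCompletionIntegers F))) :
      (w.adicCompletionIntegers F)[X]).Monic := by
    monicity!
  obtain ⟨y, hy, -⟩ := HenselianLocalRing.is_henselian _ hmon 0 (by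
    simp only [eval_add, eval_pow, eval_X, eval_C]
    rw [zero_pow two_ne_zero, zero_add, zero_add, Ideal.neg_mem_iff]
    exact Ideal.mul_mem_right _ _ h2m) (by simp)
  have hy1 : y ^ 2 + y - 2 * (k : w.adicCompletionIntegers F) = 0 := by
    have h1 : (X ^ 2 + X + C (-(2 * (k : w.adicCompletionIntegers F))) :
      (w.adicCompletionIntegers F)[X]).eval y = 0 := hy
    simp only [eval_add, eval_pow, eval_X, eval_C] at h1
    linear_combination h1
  refine ⟨((1 + 2 * y : w.adicCompletionIntegers F) : w.adicCompletion F), ?_⟩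
  have h8 : ((1 + 2 * y) ^ 2 : w.adicCompletionIntegers F) = (D : w.adicCompletionIntegers F) := by
    rw [hk]
    push_cast
    linear_combination 4 * hy1
  have h9 := congrArg (fun t : w.adicCompletionIntegers F => (t : w.adicCompletion F)) h8
  rw [map_natCast]
  have h10 : ((((1 + 2 * y) ^ 2 : w.adicCompletionIntegers F)) : w.adicCompletion F) =
      (((1 + 2 * y : w.adicCompletionIntegers F)) : w.adicCompletion F) ^ 2 := rfl
  have h11 : (((D : w.adicCompletionIntegers F)) : w.adicCompletion F) = (D : w.adicCompletion F) :=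
    map_natCast (algebraMap (w.adicCompletionIntegers F) (w.adicCompletion F)) D
  rw [← h10, ← h11]
  exact h9.symm

end Run7.h576.SR.HEN
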