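import Pool.Agent.Run7.h245.SR.Iface2

/-!
# SR, piece LEVB: the moment argument (helper576 for helper245's project SR)
-/

set_option autoImplicit false
set_option linter.all false

open Polynomial IsDedekindDomain NumberField
open scoped Classical

namespace Run7.h576.SR.LEVB

open Pool.Agent.Run7.h245.SR
open Pool.Agent.N783.PF
open Pool.Agent.N352.PJ (dd)

theorem desc_ineq (s t m : ℕ) (ε : ℝ) (hε : 0 < ε) (hε1 : ε < 1 / 2) (hs : (m : ℝ) / ε ≤ s)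
    (ht : (1 / 2 + ε) * s ≤ t) (k : ℕ) (hk : k ≤ m) :
    (1 + ε) ^ k * (s.descFactorial k : ℝ) ≤ 2 ^ k * (t.descFactorial k : ℝ) := by
  rw [div_le_iff₀ hε] at hs
  induction k with
  | zero => simp
  | succ k ih =>
    have ih := ih (by omega)
    rw [Nat.descFactorial_succ, Nat.descFactorial_succ]
    have hkm : (k : ℝ) + 1 ≤ m := by exact_mod_cast hk
    have hk0 : (0 : ℝ) ≤ k := Nat.cast_nonneg k
    have hs0 : (0 : ℝ) ≤ s := Nat.cast_nonneg s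
    have hks : k ≤ s := by
      have : (k : ℝ) ≤ s := by nlinarith
      exact_mod_cast this
    have h1 : (t : ℝ) ≤ ((t - k : ℕ) : ℝ) + k := by
      exact_mod_cast (by omega : t ≤ t - k + k)
    have h2 : ((s - k : ℕ) : ℝ) = (s : ℝ) - k := by
      rw [Nat.cast_sub hks]
    have h3 : (1 + ε) * ((s - k : ℕ) : ℝ) ≤ 2 * ((t - k : ℕ) : ℝ) := by
      rw [h2]
      nlinarith
    have h4 : (0 : ℝ) ≤ ((s - k : ℕ) : ℝ) := Nat.cast_nonneg _
    have h5 : (0 : ℝ) ≤ (1 + ε) ^ k * (s.descFactorial k : ℝ) := by positivity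
    push_cast
    calc (1 + ε) ^ (k + 1) * (((s - k : ℕ) : ℝ) * (s.descFactorial k : ℝ))
        = ((1 + ε) * ((s - k : ℕ) : ℝ)) * ((1 + ε) ^ k * (s.descFactorial k : ℝ)) := by ring
      _ ≤ (2 * ((t - k : ℕ) : ℝ)) * (2 ^ k * (t.descFactorial k : ℝ)) :=
        mul_le_mul h3 ih h5 (by positivity)
      _ = 2 ^ (k + 1) * (((t - k : ℕ) : ℝ) * (t.descFactorial k : ℝ)) := by ring

theorem choose_ineq (s t m : ℕ) (ε : ℝ) (hε : 0 < ε) (hε1 : ε < 1 / 2) (hs : (m : ℝ) / ε ≤ s)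
    (ht : (1 / 2 + ε) * s ≤ t) : (1 + ε) ^ m * (s.choose m : ℝ) ≤ 2 ^ m * (t.choose m : ℝ) := by
  have h1 := desc_ineq s t m ε hε hε1 hs ht m le_rfl
  rw [Nat.descFactorial_eq_factorial_mul_choose, Nat.descFactorial_eq_factorial_mul_choose] at h1
  push_cast at h1
  have h2 : (0 : ℝ) < (m.factorial : ℝ) := by exact_mod_cast m.factorial_pos
  have h3 : (m.factorial : ℝ) * ((1 + ε) ^ m * (s.choose m : ℝ)) ≤
      (m.factorial : ℝ) * (2 ^ m * (t.choose m : ℝ)) := by linarith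
  exact le_of_mul_le_mul_left h3 h2

theorem double {β : Type} (T : Finset ℕ) (m t : ℕ) (Bad : Finset ℕ → Set β) (A : Set β)
    (hA : ∀ f ∈ A, ∃ Z ⊆ T, t ≤ Z.card ∧ ∀ C ⊆ Z, C.card = m → f ∈ Bad C)
    (hfin : ∀ C ∈ T.powersetCard m, (Bad C).Finite) (hm : m ≤ t) :
    A.Finite ∧ t.choose m * A.ncard ≤ ∑ C ∈ T.powersetCard m, (Bad C).ncard := by
  have hAf : A.Finite := by
    apply Set.Finite.subset ((T.powersetCard m).finite_toSet.biUnion
      fun C hC => hfin C (Finset.mem_coe.1 hC))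
    intro f hf
    obtain ⟨Z, hZ, hZc, h⟩ := hA f hf
    obtain ⟨C, hC, hCc⟩ := Finset.exists_subset_card_eq (hm.trans hZc)
    rw [Set.mem_iUnion₂]
    exact ⟨C, Finset.mem_coe.2 (Finset.mem_powersetCard.2 ⟨hC.trans hZ, hCc⟩), h C hC hCc⟩
  refine ⟨hAf, ?_⟩
  have h1 : ∀ C ∈ T.powersetCard m,
      (hAf.toFinset.filter fun f => f ∈ Bad C).card ≤ (Bad C).ncard := by
    intro C hC
    rw [Set.ncard_eq_toFinset_card _ (hfin C hC)]
    apply Finset.card_le_card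
    intro f hf
    rw [Finset.mem_filter] at hf
    rw [Set.Finite.mem_toFinset]
    exact hf.2
  refine le_trans ?_ (Finset.sum_le_sum h1)
  have h2 : ∑ C ∈ T.powersetCard m, (hAf.toFinset.filter fun f => f ∈ Bad C).card =
      ∑ f ∈ hAf.toFinset, ((T.powersetCard m).filter fun C => f ∈ Bad C).card := by
    simp only [Finset.card_filter]
    rw [Finset.sum_comm]
  rw [h2, Set.ncard_eq_toFinset_card _ hAf, mul_comm, ← smul_eq_mul, ← Finset.sum_const]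
  apply Finset.sum_le_sum
  intro f hf
  rw [Set.Finite.mem_toFinset] at hf
  obtain ⟨Z, hZ, hZc, h⟩ := hA f hf
  calc t.choose m ≤ Z.card.choose m := Nat.choose_le_choose m hZc
    _ = (Z.powersetCard m).card := (Finset.card_powersetCard m Z).symm
    _ ≤ _ := by
      apply Finset.card_le_card
      intro C hC
      rw [Finset.mem_powersetCard] at hC
      rw [Finset.mem_filter, Finset.mem_powersetCard]
      exact ⟨⟨hC.1.trans hZ, hC.2⟩, h C hC.1 hC.2⟩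

theorem levb (hB : S_BADC) : S_LEVB := by
  intro F _ _ g κ hg δ ε hδ hε hε1
  obtain ⟨C₀, K, hK⟩ := hB F g κ hg
  obtain ⟨m, hm⟩ := pow_unbounded_of_one_lt ((C₀ : ℝ) / δ) (by linarith : (1 : ℝ) < 1 + ε)
  refine ⟨m, ⌈(m : ℝ) / ε⌉₊ + 2 * m, K, ?_⟩
  intro W S T 𝔮 h P hW hG hTS hT
  -- the bounds for all `C`
  have hC : ∀ C : Finset ℕ, ∃ N₀ : ℕ, C ∈ T.powersetCard m → ∀ N ≥ N₀,
      {f : (𝓞 F)[X] | LBadC g N κ S C 𝔮 P f}.Finite ∧
      2 ^ m * (∏ q ∈ S, q ^ (2 * g)) ^ Module.finrank ℚ F *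
        {f : (𝓞 F)[X] | LBadC g N κ S C 𝔮 P f}.ncard ≤
      C₀ * 2 ^ (Module.finrank ℚ F * (2 * N * dd g)) := by
    intro C
    by_cases hC : C ∈ T.powersetCard m
    · rw [Finset.mem_powersetCard] at hC
      obtain ⟨N₀, hN₀⟩ := hK W S C 𝔮 h P hW hG (hC.1.trans hTS)
      refine ⟨N₀, fun _ N hN => ?_⟩
      have := hN₀ N hN
      rwa [hC.2] at this
    · exact ⟨0, fun h => absurd h hC⟩
  choose N₀ hN₀ using hC
  refine ⟨(T.powersetCard m).sup N₀, fun N hN => ?_⟩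
  set s := T.card with hs
  set t := ⌈(1 / 2 + ε) * (s : ℝ)⌉₊ with ht
  have hs1 : (m : ℝ) / ε ≤ s := by
    have h1 : ⌈(m : ℝ) / ε⌉₊ ≤ s := by omega
    exact Nat.ceil_le.1 h1
  have ht1 : (1 / 2 + ε) * (s : ℝ) ≤ t := Nat.le_ceil _
  have hmt : m ≤ t := by
    have h1 : 2 * m ≤ s := by omega
    have h2 : (2 : ℝ) * m ≤ s := by exact_mod_cast h1
    have h3 : (m : ℝ) ≤ t := by
      have : (0 : ℝ) ≤ s := Nat.cast_nonneg _
      nlinarith
    exact_mod_cast h3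
  have key := double (β := (𝓞 F)[X]) T m t (fun C => {f | LBadC g N κ S C 𝔮 P f})
    {f : (𝓞 F)[X] | ∃ Z ⊆ T, (1 / 2 + ε) * T.card ≤ Z.card ∧
      ∀ C ⊆ Z, C.card = m → LBadC g N κ S C 𝔮 P f} (by
        rintro f ⟨Z, hZ, hZc, h⟩
        exact ⟨Z, hZ, Nat.ceil_le.2 hZc, h⟩)
    (fun C hC => (hN₀ C hC N ((Finset.le_sup hC).trans hN)).1) hmt
  refine ⟨key.1, ?_⟩
  set A := {f : (𝓞 F)[X] | ∃ Z ⊆ T, (1 / 2 + ε) * T.card ≤ Z.card ∧
      ∀ C ⊆ Z, C.card = m → LBadC g N κ S C 𝔮 P f} with hA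
  set Q := (∏ q ∈ S, q ^ (2 * g)) ^ Module.finrank ℚ F with hQ
  set E := 2 ^ (Module.finrank ℚ F * (2 * N * dd g)) with hE
  -- sum of the bounds
  have h1 : 2 ^ m * Q * (t.choose m * A.ncard) ≤ s.choose m * (C₀ * E) := by
    calc 2 ^ m * Q * (t.choose m * A.ncard)
        ≤ 2 ^ m * Q * ∑ C ∈ T.powersetCard m, {f : (𝓞 F)[X] | LBadC g N κ S C 𝔮 P f}.ncard :=
          Nat.mul_le_mul_left _ key.2
      _ = ∑ C ∈ T.powersetCard m,
          2 ^ m * Q * {f : (𝓞 F)[X] | LBadC g N κ S C 𝔮 P f}.ncard := by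
          rw [Finset.mul_sum]
      _ ≤ ∑ C ∈ T.powersetCard m, C₀ * E :=
          Finset.sum_le_sum fun C hC => (hN₀ C hC N ((Finset.le_sup hC).trans hN)).2
      _ = s.choose m * (C₀ * E) := by
          rw [Finset.sum_const, Finset.card_powersetCard, smul_eq_mul]
  have h2 := choose_ineq s t m ε hε hε1 hs1 ht1
  have h3 : (2 : ℝ) ^ m * Q * (t.choose m * A.ncard) ≤ s.choose m * (C₀ * E) := by exact_mod_cast h1
  have hEr : ((2 : ℝ) ^ (Module.finrank ℚ F * (2 * N * dd g))) = (E : ℝ) := by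
    rw [hE]; push_cast; rfl
  rw [hEr]
  have hE0 : (0 : ℝ) ≤ E := Nat.cast_nonneg _
  have hct : (0 : ℝ) < t.choose m := by exact_mod_cast Nat.choose_pos hmt
  have hC₀ : (C₀ : ℝ) ≤ δ * (1 + ε) ^ m := by
    rw [div_lt_iff₀ hδ] at hm
    linarith
  have hpos : (0 : ℝ) < 2 ^ m * (t.choose m : ℝ) := by positivity
  have h4 : (2 ^ m * (t.choose m : ℝ)) * ((Q : ℝ) * (A.ncard : ℝ)) ≤
      (2 ^ m * (t.choose m : ℝ)) * (δ * E) := by
    calc (2 ^ m * (t.choose m : ℝ)) * ((Q : ℝ) * (A.ncard : ℝ))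
        = (2 : ℝ) ^ m * Q * (t.choose m * A.ncard) := by ring
      _ ≤ s.choose m * (C₀ * E) := h3
      _ ≤ s.choose m * ((δ * (1 + ε) ^ m) * E) := by
          apply mul_le_mul_of_nonneg_left _ (Nat.cast_nonneg _)
          exact mul_le_mul_of_nonneg_right hC₀ hE0
      _ = ((1 + ε) ^ m * s.choose m) * (δ * E) := by ring
      _ ≤ (2 ^ m * (t.choose m : ℝ)) * (δ * E) :=
          mul_le_mul_of_nonneg_right h2 (by positivity)
  exact le_of_mul_le_mul_left h4 hpos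

end Run7.h576.SR.LEVB
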