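import Pool.Agent.Run7.h245.SR.Iface2

/-!
# SR, piece LPR: the real places (helper576 for helper245's project SR)

`real_exists` and `exists_sq` are copied from `Run7/h245/NF/Re.lean` (helper245).
-/

set_option autoImplicit false
set_option linter.all false

open Polynomial
open scoped Classical

namespace Run7.h576.SR.LPR

open Pool.Agent.Run7.h245.SR
open Pool.Agent.N783.PQ (LocIm)

/-- There is a real zero. -/
theorem real_exists (a b : ℝ) : ∃ r : ℝ, r ^ 3 + a * r + b = 0 := by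
  set M : ℝ := 1 + |a| + |b| with hM
  have ha := abs_nonneg a
  have hb := abs_nonneg b
  have hM1 : 1 ≤ M := by rw [hM]; linarith
  have hcont : Continuous fun r : ℝ => r ^ 3 + a * r + b := by fun_prop
  have h1 : (-M) ^ 3 + a * (-M) + b ≤ 0 := by
    have e1 : -(a * M) ≤ |a| * M := by
      have := neg_abs_le a
      nlinarith
    have e2 : b ≤ |b| := le_abs_self b
    have e3 : |a| * M + |b| ≤ M ^ 3 := by
      have h4 : |a| * M + |b| ≤ (|a| + |b|) * M := by nlinarith
      have h5 : (|a| + |b|) * M ≤ M * M := by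
        apply mul_le_mul_of_nonneg_right _ (by linarith)
        rw [hM]; linarith
      have h6 : M * M ≤ M ^ 3 := by nlinarith [mul_self_nonneg M]
      linarith
    nlinarith
  have h2 : 0 ≤ M ^ 3 + a * M + b := by
    have e1 : -(a * M) ≤ |a| * M := by
      have := neg_abs_le a
      nlinarith
    have e2 : -b ≤ |b| := neg_le_abs b
    have e3 : |a| * M + |b| ≤ M ^ 3 := by
      have h4 : |a| * M + |b| ≤ (|a| + |b|) * M := by nlinarith
      have h5 : (|a| + |b|) * M ≤ M * M := by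
        apply mul_le_mul_of_nonneg_right _ (by linarith)
        rw [hM]; linarith
      have h6 : M * M ≤ M ^ 3 := by nlinarith [mul_self_nonneg M]
      linarith
    linarith
  obtain ⟨r, -, hr⟩ := intermediate_value_Icc (by linarith : -M ≤ M) hcont.continuousOn
    (show (0 : ℝ) ∈ Set.Icc ((-M) ^ 3 + a * (-M) + b) (M ^ 3 + a * M + b) from ⟨h1, h2⟩)
  exact ⟨r, hr⟩

/-- A square in `ℝ × ℂ`. -/
theorem exists_sq (h : ℝ[X]) {a r : ℝ} (hq : 3 * r ^ 2 + 4 * a > 0) (hr : 0 ≤ h.eval r) :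
    ∃ s : ℝ[X], (X - C r) * (X ^ 2 + C r * X + C (r ^ 2 + a)) ∣ h - s ^ 2 := by
  -- the nonreal zero
  set δ : ℝ := Real.sqrt (3 * r ^ 2 + 4 * a) with hδ
  have hδ0 : 0 < δ := Real.sqrt_pos.2 hq
  have hδ2 : δ ^ 2 = 3 * r ^ 2 + 4 * a := Real.sq_sqrt hq.le
  set z : ℂ := ((-r / 2 : ℝ) : ℂ) + ((δ / 2 : ℝ) : ℂ) * Complex.I with hz
  have hzim : z.im = δ / 2 := by
    rw [hz]
    simp
  have hzre : z.re = -r / 2 := by
    rw [hz]
    simp
  set q : ℝ[X] := X ^ 2 + C r * X + C (r ^ 2 + a) with hqd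
  have hqm : q.Monic := by rw [hqd]; monicity!
  have hqn : q.natDegree = 2 := by rw [hqd]; compute_degree!
  have hqz : aeval z q = 0 := by
    have e1 : aeval z q = z ^ 2 + (r : ℂ) * z + ((r : ℂ) ^ 2 + (a : ℂ)) := by
      rw [hqd]
      simp
    rw [e1]
    apply Complex.ext
    · simp only [Complex.add_re, Complex.mul_re, pow_two, Complex.ofReal_re, Complex.ofReal_im,
        hzim, hzre, Complex.zero_re]
      nlinarith [hδ2]
    · simp only [Complex.add_im, Complex.mul_im, pow_two, Complex.ofReal_re, Complex.ofReal_im,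
        hzim, hzre, Complex.zero_im]
      ring
  -- divisibility by `q`
  have hdvd : ∀ p : ℝ[X], aeval z p = 0 → q ∣ p := by
    intro p hp
    rw [← modByMonic_eq_zero_iff_dvd hqm]
    have h1 : aeval z (p %ₘ q) = 0 := by
      have h2 := congrArg (aeval z) (modByMonic_add_div p q)
      rw [map_add, map_mul, hqz, zero_mul, add_zero, hp] at h2
      exact h2
    have h3 : (p %ₘ q).degree < 2 := by
      have := degree_modByMonic_lt p hqm
      rwa [degree_eq_natDegree hqm.ne_zero, hqn] at this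
    have h4 : (p %ₘ q) = C ((p %ₘ q).coeff 1) * X + C ((p %ₘ q).coeff 0) :=
      eq_X_add_C_of_degree_le_one (Order.le_of_lt_succ h3)
    rw [h4] at h1
    rw [map_add, map_mul, aeval_X, aeval_C, aeval_C] at h1
    have h5 := congrArg Complex.im h1
    have h6 := congrArg Complex.re h1
    simp only [Complex.coe_algebraMap, Complex.add_im, Complex.mul_im, Complex.ofReal_re,
      Complex.ofReal_im, hzim, hzre, Complex.zero_im, Complex.add_re, Complex.mul_re,
      Complex.zero_re] at h5 h6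
    have h7 : (p %ₘ q).coeff 1 = 0 := by
      have : (p %ₘ q).coeff 1 * (δ / 2) = 0 := by linarith
      rcases mul_eq_zero.1 this with h | h
      · exact h
      · linarith
    rw [h7] at h6
    have h8 : (p %ₘ q).coeff 0 = 0 := by linarith
    rw [h4, h7, h8]
    simp
  -- the square root at `z`
  obtain ⟨w, hw⟩ : ∃ w : ℂ, w ^ 2 = aeval z h := ⟨(aeval z h) ^ ((1 : ℂ) / 2), by
    rw [← Complex.cpow_nat_mul]
    norm_num⟩
  obtain ⟨α, β, hαβ⟩ : ∃ α β : ℝ, (α : ℂ) + (β : ℂ) * z = w := by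
    refine ⟨w.re - (w.im / (δ / 2)) * (-r / 2), w.im / (δ / 2), ?_⟩
    apply Complex.ext
    · simp only [Complex.add_re, Complex.mul_re, Complex.ofReal_re, Complex.ofReal_im, hzim, hzre]
      ring
    · simp only [Complex.add_im, Complex.mul_im, Complex.ofReal_re, Complex.ofReal_im, hzim, hzre]
      field_simp
      ring
  have hqr : q.eval r ≠ 0 := by
    have e : q.eval r = 3 * r ^ 2 + a := by
      rw [hqd]
      simp
      ring
    rw [e]
    intro h0
    nlinarith [sq_nonneg r]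
  set c : ℝ := (Real.sqrt (h.eval r) - (α + β * r)) / q.eval r with hc
  refine ⟨C α + C β * X + C c * q, ?_⟩
  have h1 : (X - C r) ∣ h - (C α + C β * X + C c * q) ^ 2 := by
    rw [dvd_iff_isRoot, IsRoot.def]
    have e : (C α + C β * X + C c * q).eval r = Real.sqrt (h.eval r) := by
      simp only [eval_add, eval_mul, eval_C, eval_X]
      rw [hc, div_mul_cancel₀ _ hqr]
      ring
    rw [eval_sub, eval_pow, e, Real.sq_sqrt hr, sub_self]
  have h2 : q ∣ h - (C α + C β * X + C c * q) ^ 2 := by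
    apply hdvd
    have e : aeval z (C α + C β * X + C c * q) = w := by
      rw [map_add, map_add, map_mul, map_mul, hqz, aeval_X, aeval_C, aeval_C, mul_zero, add_zero]
      exact hαβ
    rw [map_sub, map_pow, e, hw, sub_self]
  refine IsCoprime.mul_dvd ?_ h1 h2
  have hcop : IsCoprime (X - C r) q := by
    have hirr : Irreducible (X - C r) := irreducible_X_sub_C r
    rw [hirr.coprime_iff_not_dvd, dvd_iff_isRoot]
    exact hqr
  exact hcop


/-- A monic polynomial without zeros `≤ c`. -/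
theorem sign_left (u : ℝ[X]) (hu : u.Monic) (c : ℝ) (hz : ∀ t ≤ c, u.eval t ≠ 0) :
    0 < ((-1) ^ u.natDegree * u).eval c := by
  have e : ∀ t, ((-1) ^ u.natDegree * u).eval t = (-1) ^ u.natDegree * u.eval t := by
    intro t; simp
  rw [e]
  by_contra hcon
  push Not at hcon
  have hne : (-1 : ℝ) ^ u.natDegree * u.eval c ≠ 0 :=
    mul_ne_zero (pow_ne_zero _ (by norm_num)) (hz c le_rfl)
  have hneg : (-1 : ℝ) ^ u.natDegree * u.eval c < 0 := lt_of_le_of_ne hcon hne
  set q : ℝ[X] := C ((-1) ^ u.natDegree) * u.comp (-X) with hq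
  have hqe : ∀ t, q.eval t = (-1) ^ u.natDegree * u.eval (-t) := by
    intro t; rw [hq]; simp
  have hd : 0 < u.natDegree := by
    rcases Nat.eq_zero_or_pos u.natDegree with h0 | h0
    · exfalso
      have h1 : u = 1 := hu.natDegree_eq_zero.1 h0
      rw [h1] at hneg
      simp at hneg
      linarith
    · exact h0
  have hlc : q.leadingCoeff = 1 := by
    rw [hq, leadingCoeff_mul, leadingCoeff_C, leadingCoeff_comp (by simp), hu.leadingCoeff,
      leadingCoeff_neg, leadingCoeff_X, one_mul, ← mul_pow]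
    norm_num
  have hqd : 0 < q.degree := by
    rw [← natDegree_pos_iff_degree_pos, hq, natDegree_C_mul (pow_ne_zero _ (by norm_num)),
      natDegree_comp, natDegree_neg, natDegree_X, mul_one]
    exact hd
  have ht := q.tendsto_atTop_of_leadingCoeff_nonneg hqd (by rw [hlc]; norm_num)
  obtain ⟨T, hT⟩ := (Filter.tendsto_atTop.1 ht 0).exists_forall_of_atTop
  set S := max T (-c) with hS
  have h1 : 0 ≤ q.eval S := hT S (le_max_left _ _)
  have h2 : q.eval (-c) ≤ 0 := by rw [hqe, neg_neg]; exact hneg.le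
  obtain ⟨t, ht1, ht2⟩ := intermediate_value_Icc (le_max_right T (-c)) q.continuous.continuousOn
    (show (0 : ℝ) ∈ Set.Icc (q.eval (-c)) (q.eval S) from ⟨h2, h1⟩)
  have ht3 : q.eval t = 0 := ht2
  rw [hqe] at ht3
  have ht4 := (mul_eq_zero.1 ht3).resolve_left (pow_ne_zero _ (by norm_num))
  exact hz (-t) (by linarith [ht1.1]) ht4

/-- A polynomial without zeros in `[c, d]`. -/
theorem sign_mid (u : ℝ[X]) (c d : ℝ) (hcd : c ≤ d) (hz : ∀ t, c ≤ t → t ≤ d → u.eval t ≠ 0) :
    0 < u.eval c * u.eval d := by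
  by_contra hcon
  push Not at hcon
  have hc := hz c le_rfl hcd
  have hcont : ContinuousOn (fun t => u.eval c * u.eval t) (Set.Icc c d) :=
    (continuous_const.mul u.continuous).continuousOn
  have h1 : 0 ≤ u.eval c * u.eval c := mul_self_nonneg _
  obtain ⟨t, ht1, ht2⟩ := intermediate_value_Icc' hcd hcont
    (show (0 : ℝ) ∈ Set.Icc (u.eval c * u.eval d) (u.eval c * u.eval c) from ⟨hcon, h1⟩)
  have ht3 : u.eval c * u.eval t = 0 := ht2
  rcases mul_eq_zero.1 ht3 with h | h
  · exact hc h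
  · exact hz t ht1.1 ht1.2 h

/-- At a zero `t` of `u` the cubic polynomial is positive. -/
theorem pos_of_root {f u v : ℝ[X]} (hcop : IsCoprime u f) (hd : u ∣ v ^ 2 - f) {t : ℝ}
    (ht : u.eval t = 0) : 0 < f.eval t := by
  obtain ⟨w, hw⟩ := hd
  have h1 := congrArg (Polynomial.eval t) hw
  rw [eval_sub, eval_pow, eval_mul, ht, zero_mul] at h1
  have h2 : f.eval t = (v.eval t) ^ 2 := by linarith
  obtain ⟨x, y, hxy⟩ := hcop
  have h3 := congrArg (Polynomial.eval t) hxy
  rw [eval_add, eval_mul, eval_mul, ht, mul_zero, zero_add, eval_one] at h3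
  have h4 : f.eval t ≠ 0 := by
    intro h0; rw [h0, mul_zero] at h3; exact zero_ne_one h3
  rw [h2] at h4 ⊢
  exact lt_of_le_of_ne (sq_nonneg _) (Ne.symm h4)

/-- The product in `LocIm`. -/
noncomputable def pr (l : List (ℝ[X] × ℝ[X])) : ℝ[X] :=
  (l.map fun p => (-1) ^ p.1.natDegree * p.1).prod

theorem pr_nil : pr [] = 1 := by simp [pr]

theorem pr_cons (p : ℝ[X] × ℝ[X]) (l : List (ℝ[X] × ℝ[X])) :
    pr (p :: l) = (-1) ^ p.1.natDegree * p.1 * pr l := by
  unfold pr; rw [List.map_cons, List.prod_cons]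

theorem list_left {f : ℝ[X]} {c : ℝ} (hneg : ∀ t ≤ c, f.eval t ≤ 0) (l : List (ℝ[X] × ℝ[X]))
    (hl : ∀ p ∈ l, p.1.Monic ∧ IsCoprime p.1 f ∧ p.1 ∣ p.2 ^ 2 - f) :
    0 < (pr l).eval c := by
  induction l with
  | nil => simp [pr_nil]
  | cons p l ih =>
    rw [pr_cons, eval_mul]
    obtain ⟨h1, h2, h3⟩ := hl p (List.mem_cons_self)
    refine mul_pos (sign_left p.1 h1 c ?_) (ih fun q hq => hl q (List.mem_cons_of_mem _ hq))
    intro t ht h0
    exact absurd (pos_of_root h2 h3 h0) (not_lt.2 (hneg t ht))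

theorem list_mid {f : ℝ[X]} {c d : ℝ} (hcd : c ≤ d) (hneg : ∀ t, c ≤ t → t ≤ d → f.eval t ≤ 0)
    (l : List (ℝ[X] × ℝ[X]))
    (hl : ∀ p ∈ l, p.1.Monic ∧ IsCoprime p.1 f ∧ p.1 ∣ p.2 ^ 2 - f) :
    0 < (pr l).eval c * (pr l).eval d := by
  induction l with
  | nil => simp [pr_nil]
  | cons p l ih =>
    rw [pr_cons, eval_mul (p := (-1) ^ p.1.natDegree * p.1) (q := pr l) (x := c),
      eval_mul (p := (-1) ^ p.1.natDegree * p.1) (q := pr l) (x := d)]
    obtain ⟨h1, h2, h3⟩ := hl p (List.mem_cons_self)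
    have h4 : 0 < ((-1) ^ p.1.natDegree * p.1).eval c * ((-1) ^ p.1.natDegree * p.1).eval d := by
      apply sign_mid _ c d hcd
      intro t ht1 ht2 h0
      have h5 : ((-1) ^ p.1.natDegree * p.1).eval t = (-1) ^ p.1.natDegree * p.1.eval t := by simp
      rw [h5] at h0
      have h6 := (mul_eq_zero.1 h0).resolve_left (pow_ne_zero _ (by norm_num))
      exact absurd (pos_of_root h2 h3 h6) (not_lt.2 (hneg t ht1 ht2))
    have h5 := mul_pos h4 (ih fun q hq => hl q (List.mem_cons_of_mem _ hq))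
    nlinarith [h5]

/-- Interpolation of square roots. -/
theorem interp (p : ℝ[X]) {e₁ e₂ e₃ : ℝ} (h12 : e₁ < e₂) (h23 : e₂ < e₃) (h1 : 0 ≤ p.eval e₁)
    (h2 : 0 ≤ p.eval e₂) (h3 : 0 ≤ p.eval e₃) :
    ∃ g : ℝ[X], (X - C e₁) * (X - C e₂) * (X - C e₃) ∣ p - g ^ 2 := by
  have d12 : e₁ - e₂ ≠ 0 := by linarith
  have d13 : e₁ - e₃ ≠ 0 := by linarith
  have d23 : e₂ - e₃ ≠ 0 := by linarith
  have d21 : e₂ - e₁ ≠ 0 := by linarith
  have d31 : e₃ - e₁ ≠ 0 := by linarith
  have d32 : e₃ - e₂ ≠ 0 := by linarith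
  set g : ℝ[X] := C (Real.sqrt (p.eval e₁) / ((e₁ - e₂) * (e₁ - e₃))) * ((X - C e₂) * (X - C e₃)) +
    C (Real.sqrt (p.eval e₂) / ((e₂ - e₁) * (e₂ - e₃))) * ((X - C e₁) * (X - C e₃)) +
    C (Real.sqrt (p.eval e₃) / ((e₃ - e₁) * (e₃ - e₂))) * ((X - C e₁) * (X - C e₂)) with hg
  have g1 : g.eval e₁ = Real.sqrt (p.eval e₁) := by
    rw [hg]
    simp only [eval_add, eval_mul, eval_sub, eval_X, eval_C, sub_self, zero_mul, mul_zero, add_zero]
    field_simp
  have g2 : g.eval e₂ = Real.sqrt (p.eval e₂) := by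
    rw [hg]
    simp only [eval_add, eval_mul, eval_sub, eval_X, eval_C, sub_self, zero_mul, mul_zero, add_zero,
      zero_add]
    field_simp
  have g3 : g.eval e₃ = Real.sqrt (p.eval e₃) := by
    rw [hg]
    simp only [eval_add, eval_mul, eval_sub, eval_X, eval_C, sub_self, zero_mul, mul_zero, add_zero,
      zero_add]
    field_simp
  refine ⟨g, ?_⟩
  have key : ∀ e, 0 ≤ p.eval e → g.eval e = Real.sqrt (p.eval e) → (X - C e) ∣ p - g ^ 2 := by
    intro e he hge
    rw [dvd_iff_isRoot, IsRoot.def, eval_sub, eval_pow, hge, Real.sq_sqrt he, sub_self]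
  have c12 : IsCoprime (X - C e₁) (X - C e₂) := isCoprime_X_sub_C_of_isUnit_sub (IsUnit.mk0 _ d12)
  have c13 : IsCoprime (X - C e₁) (X - C e₃) := isCoprime_X_sub_C_of_isUnit_sub (IsUnit.mk0 _ d13)
  have c23 : IsCoprime (X - C e₂) (X - C e₃) := isCoprime_X_sub_C_of_isUnit_sub (IsUnit.mk0 _ d23)
  exact (c13.mul_left c23).mul_dvd (c12.mul_dvd (key _ h1 g1) (key _ h2 g2)) (key _ h3 g3)

/-- Three real zeros. -/
theorem three {a b : ℝ} (h : ℝ[X]) {e₁ e₂ e₃ : ℝ} (h12 : e₁ < e₂) (h23 : e₂ < e₃)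
    (hf : cb a b = (X - C e₁) * (X - C e₂) * (X - C e₃)) (hcop : IsCoprime h (cb a b))
    (H : LocIm ℝ (cb a b) h) : (∃ g : ℝ[X], cb a b ∣ h - g ^ 2) ∨
  ∃ x y : ℝ, y ≠ 0 ∧ y ^ 2 = x ^ 3 + a * x + b ∧ ∃ g : ℝ[X], cb a b ∣ (C x - X) * h - g ^ 2 := by
  obtain ⟨l, s, hl, hs⟩ := H
  have hfe : ∀ t, (cb a b).eval t = (t - e₁) * (t - e₂) * (t - e₃) := by
    intro t; rw [hf]; simp
  have hfe' : ∀ t, (cb a b).eval t = t ^ 3 + a * t + b := by
    intro t; simp [cb]
  have p1 := list_left (c := e₁) (f := cb a b) (fun t ht => by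
    rw [hfe]
    have h1 : 0 ≤ (e₁ - t) * (e₂ - t) * (e₃ - t) :=
      mul_nonneg (mul_nonneg (by linarith) (by linarith)) (by linarith)
    nlinarith [h1]) l hl
  have p2 := list_mid (c := e₂) (d := e₃) h23.le (f := cb a b) (fun t ht1 ht2 => by
    rw [hfe]
    have h1 : 0 ≤ (t - e₁) * (t - e₂) * (e₃ - t) :=
      mul_nonneg (mul_nonneg (by linarith) (by linarith)) (by linarith)
    nlinarith [h1]) l hl
  change cb a b ∣ h * pr l - s ^ 2 at hs
  set P := pr l with hP
  have hev : ∀ e, (cb a b).eval e = 0 → h.eval e * P.eval e = (s.eval e) ^ 2 ∧ h.eval e ≠ 0 := by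
    intro e he
    obtain ⟨w, hw⟩ := hs
    have h1 := congrArg (Polynomial.eval e) hw
    rw [eval_sub, eval_mul, eval_pow, eval_mul, he, zero_mul] at h1
    obtain ⟨x, y, hxy⟩ := hcop
    have h3 := congrArg (Polynomial.eval e) hxy
    rw [eval_add, eval_mul, eval_mul, he, mul_zero, add_zero, eval_one] at h3
    refine ⟨by linarith, ?_⟩
    intro h0
    rw [h0, mul_zero] at h3
    exact zero_ne_one h3
  obtain ⟨a1, b1⟩ := hev e₁ (by rw [hfe]; ring)
  obtain ⟨a2, b2⟩ := hev e₂ (by rw [hfe]; ring)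
  obtain ⟨a3, b3⟩ := hev e₃ (by rw [hfe]; ring)
  have c1 : 0 < h.eval e₁ := by
    have h1 : 0 ≤ h.eval e₁ * P.eval e₁ := by rw [a1]; positivity
    have h2 : 0 ≤ h.eval e₁ := nonneg_of_mul_nonneg_left h1 p1
    exact lt_of_le_of_ne h2 (Ne.symm b1)
  have c23 : 0 < h.eval e₂ * h.eval e₃ := by
    have h1 : 0 ≤ (h.eval e₂ * P.eval e₂) * (h.eval e₃ * P.eval e₃) := by
      rw [a2, a3]; positivity
    have h2 : 0 ≤ (h.eval e₂ * h.eval e₃) * (P.eval e₂ * P.eval e₃) := by nlinarith [h1]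
    have h3 := nonneg_of_mul_nonneg_left h2 p2
    exact lt_of_le_of_ne h3 (Ne.symm (mul_ne_zero b2 b3))
  rcases lt_or_gt_of_ne b2 with hn | hp
  · have hn3 : h.eval e₃ < 0 := by
      by_contra hcon
      push Not at hcon
      nlinarith [mul_nonneg_of_nonpos_of_nonpos hn.le (neg_nonpos.2 hcon)]
    right
    set x := (e₁ + e₂) / 2 with hx
    have hx1 : e₁ < x := by rw [hx]; linarith
    have hx2 : x < e₂ := by rw [hx]; linarith
    have hfx : 0 < x ^ 3 + a * x + b := by
      rw [← hfe', hfe]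
      have : 0 < (x - e₁) * ((e₂ - x) * (e₃ - x)) :=
        mul_pos (by linarith) (mul_pos (by linarith) (by linarith))
      nlinarith [this]
    obtain ⟨g, hg⟩ := interp ((C x - X) * h) h12 h23
      (by rw [eval_mul]; simp only [eval_sub, eval_C, eval_X]
          exact mul_nonneg (by linarith) c1.le)
      (by rw [eval_mul]; simp only [eval_sub, eval_C, eval_X]
          exact mul_nonneg_of_nonpos_of_nonpos (by linarith) hn.le)
      (by rw [eval_mul]; simp only [eval_sub, eval_C, eval_X]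
          exact mul_nonneg_of_nonpos_of_nonpos (by linarith) hn3.le)
    rw [← hf] at hg
    exact ⟨x, Real.sqrt (x ^ 3 + a * x + b), (Real.sqrt_pos.2 hfx).ne', Real.sq_sqrt hfx.le, g, hg⟩
  · have hp3 : 0 < h.eval e₃ := (pos_iff_pos_of_mul_pos c23).1 hp
    left
    obtain ⟨g, hg⟩ := interp h h12 h23 c1.le hp.le hp3.le
    rw [← hf] at hg
    exact ⟨g, hg⟩

theorem lpr : S_LPR := by
  intro a b h hdisc hcop H
  obtain ⟨r, hr⟩ := real_exists a b
  have hb : b = -(r ^ 3 + a * r) := by linarith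
  have hfac : cb a b = (X - C r) * (X ^ 2 + C r * X + C (r ^ 2 + a)) := by
    rw [hb]
    simp only [cb, C_neg, C_add, C_mul, C_pow]
    ring
  have hd2 : 4 * a ^ 3 + 27 * b ^ 2 = (4 * a + 3 * r ^ 2) * (a + 3 * r ^ 2) ^ 2 := by
    rw [hb]; ring
  have hne1 : a + 3 * r ^ 2 ≠ 0 := by
    intro h0; apply hdisc; rw [hd2, h0]; ring
  have hne2 : 4 * a + 3 * r ^ 2 ≠ 0 := by
    intro h0; apply hdisc; rw [hd2, h0]; ring
  rcases lt_or_gt_of_ne hne2 with hneg | hpos
  · -- three real zeros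
    set δ := Real.sqrt (-(4 * a + 3 * r ^ 2)) with hδ
    have hδ0 : 0 < δ := Real.sqrt_pos.2 (by linarith)
    have hδ2 : δ ^ 2 = -(4 * a + 3 * r ^ 2) := Real.sq_sqrt (by linarith)
    have ha : a = -(δ ^ 2 + 3 * r ^ 2) / 4 := by linarith
    set s := (-r - δ) / 2 with hs
    set t := (-r + δ) / 2 with ht
    have hst : s < t := by rw [hs, ht]; linarith
    have hquad : (X ^ 2 + C r * X + C (r ^ 2 + a) : ℝ[X]) = (X - C s) * (X - C t) := by
      have h1 : r = -(s + t) := by rw [hs, ht]; ring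
      have h2 : r ^ 2 + a = s * t := by
        rw [hs, ht, ha]; ring
      rw [h2]
      nth_rewrite 1 [h1]
      rw [C_neg, C_add, C_mul]
      ring
    have hrs : r ≠ s := by
      intro h0
      apply hne1
      have : δ = -3 * r := by rw [hs] at h0; linarith
      have h5 : (-(4 * a + 3 * r ^ 2)) = 9 * r ^ 2 := by rw [← hδ2, this]; ring
      nlinarith [h5]
    have hrt : r ≠ t := by
      intro h0
      apply hne1
      have : δ = 3 * r := by rw [ht] at h0; linarith
      have h5 : (-(4 * a + 3 * r ^ 2)) = 9 * r ^ 2 := by rw [← hδ2, this]; ring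
      nlinarith [h5]
    rw [hquad] at hfac
    rcases lt_or_gt_of_ne hrs with h1 | h1
    · exact three h h1 hst (by rw [hfac]; ring) hcop H
    · rcases lt_or_gt_of_ne hrt with h2 | h2
      · exact three h h1 h2 (by rw [hfac]; ring) hcop H
      · exact three h hst h2 (by rw [hfac]; ring) hcop H
  · -- one real zero
    left
    obtain ⟨l, s, hl, hs⟩ := H
    have hfe : ∀ t, (cb a b).eval t = (t - r) * (t ^ 2 + r * t + (r ^ 2 + a)) := by
      intro t; rw [hfac]; simp
    have p1 := list_left (c := r) (f := cb a b) (fun t ht => by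
      rw [hfe]
      have h1 : 0 ≤ t ^ 2 + r * t + (r ^ 2 + a) := by
        nlinarith [sq_nonneg (t + r / 2)]
      have h2 : 0 ≤ (r - t) * (t ^ 2 + r * t + (r ^ 2 + a)) := mul_nonneg (by linarith) h1
      nlinarith [h2]) l hl
    change cb a b ∣ h * pr l - s ^ 2 at hs
    set P := pr l with hP
    have hroot : (cb a b).eval r = 0 := by rw [hfe]; ring
    have h0 : 0 ≤ h.eval r := by
      obtain ⟨w, hw⟩ := hs
      have h1 := congrArg (Polynomial.eval r) hw
      rw [eval_sub, eval_mul, eval_pow, eval_mul, hroot, zero_mul] at h1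
      have h2 : 0 ≤ h.eval r * P.eval r := by
        have : h.eval r * P.eval r = (s.eval r) ^ 2 := by linarith
        rw [this]; positivity
      exact nonneg_of_mul_nonneg_left h2 p1
    obtain ⟨g, hg⟩ := exists_sq h (a := a) (r := r) (by linarith) h0
    rw [← hfac] at hg
    exact ⟨g, hg⟩

end Run7.h576.SR.LPR
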