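import Pool.Agent.Run7.h245.SR.Iface2

/-!
# SR, piece PL: the `y`-coordinate exists because of the norms (helper576 for helper245's project SR)
-/

set_option autoImplicit false
set_option linter.all false

open Polynomial

namespace Run7.h576.SR.PL

open Pool.Agent.Run7.h245.SR
open Pool.Agent.N874.PM (PLoc)

section pb

variable {K : Type*} [Field K] {f : K[X]}

lemma pb_basis (hf : f ≠ 0) (i : Fin f.natDegree) :
    AdjoinRoot.powerBasisAux hf i = AdjoinRoot.root f ^ (i : ℕ) := by
  simp [AdjoinRoot.powerBasisAux]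

lemma mk_mod (u : K[X]) : AdjoinRoot.mk f (u % f) = AdjoinRoot.mk f u := by
  rw [AdjoinRoot.mk_eq_mk, EuclideanDomain.mod_eq_sub_mul_div, sub_sub_cancel_left, dvd_neg]
  exact dvd_mul_right _ _

lemma pb_repr (hf : f ≠ 0) (u : K[X]) (i : Fin f.natDegree) :
    (AdjoinRoot.powerBasisAux hf).repr (AdjoinRoot.mk f u) i = (u % f).coeff i := by
  have hn : f.natDegree ≠ 0 := by
    have := i.2
    omega
  have h1 : AdjoinRoot.mk f u =
      ∑ j : Fin f.natDegree, (u % f).coeff j • AdjoinRoot.powerBasisAux hf j := by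
    rw [← mk_mod u]
    nth_rewrite 1 [as_sum_range' (u % f) f.natDegree (natDegree_mod_lt u hn)]
    rw [map_sum, Finset.sum_range]
    refine Finset.sum_congr rfl fun j _ => ?_
    rw [pb_basis, ← C_mul_X_pow_eq_monomial, map_mul, map_pow, AdjoinRoot.mk_X, AdjoinRoot.mk_C,
      Algebra.smul_def]
    rfl
  rw [h1]
  have := (AdjoinRoot.powerBasisAux hf).repr_sum_self (fun j : Fin f.natDegree => (u % f).coeff j)
  exact congrFun this i

lemma lm_apply (hf : f ≠ 0) (u : K[X]) (i j : Fin f.natDegree) :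
    Algebra.leftMulMatrix (AdjoinRoot.powerBasisAux hf) (AdjoinRoot.mk f u) i j =
      ((u * X ^ (j : ℕ)) % f).coeff i := by
  rw [Algebra.leftMulMatrix_eq_repr_mul, pb_basis, ← AdjoinRoot.mk_X, ← map_pow, ← map_mul, pb_repr]

lemma norm_det (hf : f ≠ 0) (u : K[X]) : Algebra.norm K (AdjoinRoot.mk f u) =
    (Matrix.of fun i j : Fin f.natDegree => ((u * X ^ (j : ℕ)) % f).coeff i).det := by
  rw [Algebra.norm_eq_matrix_det (AdjoinRoot.powerBasisAux hf)]
  congr 1
  ext i j
  rw [lm_apply]; rfl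

end pb

section bc

variable {K : Type*} {F : Type*} [Field K] [Field F]

/-- Base change of the norm. -/
lemma norm_bc (φ : K →+* F) {f : K[X]} (hf : f ≠ 0) (u : K[X]) :
    Algebra.norm F (AdjoinRoot.mk (f.map φ) (u.map φ)) =
      φ (Algebra.norm K (AdjoinRoot.mk f u)) := by
  have hf' : f.map φ ≠ 0 := (Polynomial.map_ne_zero_iff φ.injective).2 hf
  rw [norm_det hf', norm_det hf, RingHom.map_det]
  have hd : (f.map φ).natDegree = f.natDegree := natDegree_map φ
  have key : ∀ i j : ℕ, ((u.map φ * X ^ j) % (f.map φ)).coeff i =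
      φ (((u * X ^ j) % f).coeff i) := by
    intro i j
    have : u.map φ * X ^ j = (u * X ^ j).map φ := by
      rw [Polynomial.map_mul, Polynomial.map_pow, map_X]
    rw [this, ← Polynomial.map_mod, coeff_map]
  have := Matrix.det_submatrix_equiv_self (finCongr hd)
    (Matrix.of fun i j : Fin f.natDegree => φ (((u * X ^ (j : ℕ)) % f).coeff i))
  rw [← Matrix.det_submatrix_equiv_self (finCongr hd)]
  congr 1
  ext i j
  simp only [Matrix.submatrix_apply, Matrix.of_apply, RingHom.mapMatrix_apply, Matrix.map_apply,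
    finCongr_apply, Fin.val_cast]
  exact key _ _

end bc

/-- The norm of `x - θ`. -/
lemma norm_sub {K : Type*} [Field K] {f : K[X]} (hf : f.Monic) (x : K) :
    Algebra.norm K (AdjoinRoot.mk f (C x - X)) = f.eval x := by
  have h1 : AdjoinRoot.mk f (C x - X) = algebraMap K (AdjoinRoot f) x -
      (AdjoinRoot.powerBasis hf.ne_zero).gen := by
    rw [map_sub, AdjoinRoot.mk_X, AdjoinRoot.mk_C, AdjoinRoot.powerBasis_gen]
    rfl
  have h2 : (Algebra.leftMulMatrix (AdjoinRoot.powerBasis hf.ne_zero).basis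
      (AdjoinRoot.powerBasis hf.ne_zero).gen).charpoly = f := by
    rw [charpoly_leftMulMatrix, AdjoinRoot.powerBasis_gen, AdjoinRoot.minpoly_root hf.ne_zero,
      hf.leadingCoeff, inv_one, C_1, mul_one]
  rw [h1, Algebra.norm_eq_matrix_det (AdjoinRoot.powerBasis hf.ne_zero).basis, map_sub]
  conv_rhs => rw [← h2, Matrix.eval_charpoly]
  congr 2
  rw [AlgHom.commutes]
  rfl

lemma cb_monic {K : Type} [Field K] (A B : K) : (cb A B).Monic := by
  unfold cb
  monicity!

theorem pl : S_PL := by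
  intro M E _ _ _ _ A B h x g hcop hsq hx hdvd
  have hm : (cb A B).map (algebraMap M E) = cb (algebraMap M E A) (algebraMap M E B) := by
    simp [cb]
  obtain ⟨c, hc⟩ := hsq
  have hunit : IsUnit (AdjoinRoot.mk (cb A B) h) := by
    obtain ⟨u, v, huv⟩ := hcop
    apply IsUnit.of_mul_eq_one (AdjoinRoot.mk (cb A B) u)
    rw [← map_mul, ← map_one (AdjoinRoot.mk (cb A B)), AdjoinRoot.mk_eq_mk, ← huv]
    exact ⟨-v, by ring⟩
  have hc0 : c ≠ 0 := by
    rintro rfl
    have h1 := hunit.map (Algebra.norm M)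
    rw [hc, mul_zero] at h1
    exact not_isUnit_zero h1
  have hc0' : algebraMap M E c ≠ 0 := by
    rw [Ne, FaithfulSMul.algebraMap_eq_zero_iff]; exact hc0
  have hf := cb_monic (algebraMap M E A) (algebraMap M E B)
  have h2 := norm_bc (algebraMap M E) (cb_monic A B).ne_zero h
  rw [hm] at h2
  have h3 := norm_sub hf x
  have h4 : AdjoinRoot.mk (cb (algebraMap M E A) (algebraMap M E B))
      ((C x - X) * h.map (algebraMap M E)) =
      AdjoinRoot.mk (cb (algebraMap M E A) (algebraMap M E B)) (g ^ 2) :=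
    AdjoinRoot.mk_eq_mk.2 hdvd
  have h5 := congrArg (Algebra.norm E) h4
  rw [map_mul, map_mul, map_pow, map_pow, h2, h3, hc, map_mul] at h5
  have h6 : (cb (algebraMap M E A) (algebraMap M E B)).eval x =
      x ^ 3 + algebraMap M E A * x + algebraMap M E B := by simp [cb]
  rw [h6] at h5
  set n := Algebra.norm E (AdjoinRoot.mk (cb (algebraMap M E A) (algebraMap M E B)) g) with hn
  have hy : (n / algebraMap M E c) ^ 2 = x ^ 3 + algebraMap M E A * x + algebraMap M E B := by
    rw [div_pow, div_eq_iff (pow_ne_zero _ hc0'), ← h5]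
    ring
  right
  refine ⟨x, n / algebraMap M E c, ?_, hy, g, hdvd⟩
  intro h0
  apply hx
  rw [← hy, h0]
  ring

end Run7.h576.SR.PL
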