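import Pool.Agent.Run7.h245.SR.Iface2

/-!
# SR, piece SCG: scaling of the generator (helper576 for helper245's project SR)
-/

set_option autoImplicit false
set_option linter.all false

open Polynomial IsDedekindDomain NumberField
open scoped Classical

namespace Run7.h576.SR.SCG

open Pool.Agent.Run7.h245.SR
open Pool.Agent.N783.PF

variable {F L : Type} [Field F] [NumberField F] [Field L] [NumberField L] [Algebra F L]

/-- The discriminant of a monic cubic polynomial without quadratic term. -/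
theorem dsc_cubic (p : (𝓞 F)[X]) (hm : p.Monic) (hn : p.natDegree = 3) (h2 : p.coeff 2 = 0) :
    dsc 1 p = 4 * p.coeff 1 ^ 3 + 27 * p.coeff 0 ^ 2 := by
  have hdeg : p.degree = 3 := by
    rw [degree_eq_natDegree hm.ne_zero, hn]
    rfl
  have h1 := resultant_deriv (f := p) (by rw [hdeg]; norm_num)
  rw [hn] at h1
  have h2' := discr_of_degree_eq_three hdeg
  rw [h2', h2, hm.leadingCoeff] at h1
  have h3 : p.coeff 3 = 1 := by
    have := hm.coeff_natDegree
    rwa [hn] at this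
  rw [h3] at h1
  have h4 : dsc 1 p = p.resultant (derivative p) 3 2 := rfl
  rw [h4]
  refine h1.trans ?_
  norm_num
  ring

/-- Separability modulo a prime which does not contain the discriminant. -/
theorem sep_of_dsc (p : (𝓞 F)[X]) (hn : p.natDegree = 3)
    (w : HeightOneSpectrum (𝓞 F)) (h : dsc 1 p ∉ w.asIdeal) : (rd w.asIdeal p).Separable := by
  have hmax : w.asIdeal.IsMaximal := w.isMaximal
  letI := Ideal.Quotient.field w.asIdeal
  have h1 : Ideal.Quotient.mk w.asIdeal (dsc 1 p) =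
      (rd w.asIdeal p).resultant (derivative (rd w.asIdeal p)) 3 2 := by
    rw [dsc, derivative_map, resultant_map_map]
  have hne : (rd w.asIdeal p).resultant (derivative (rd w.asIdeal p)) 3 2 ≠ 0 := by
    rw [← h1]
    intro h0
    exact h (Ideal.Quotient.eq_zero_iff_mem.1 h0)
  have hd1 : (rd w.asIdeal p).natDegree ≤ 3 := natDegree_map_le.trans hn.le
  have hd2 : (derivative (rd w.asIdeal p)).natDegree ≤ 2 := by
    have := natDegree_derivative_le (rd w.asIdeal p)
    omega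
  obtain ⟨a, b, -, -, hab⟩ := exists_mul_add_mul_eq_C_resultant (rd w.asIdeal p)
    (derivative (rd w.asIdeal p)) hd1 hd2 (Or.inl (by norm_num))
  set r := (rd w.asIdeal p).resultant (derivative (rd w.asIdeal p)) 3 2 with hr
  refine ⟨a * C r⁻¹, b * C r⁻¹, ?_⟩
  have h2 : (C r : (𝓞 F ⧸ w.asIdeal)[X]) * C r⁻¹ = 1 := by
    rw [← C_mul, mul_inv_cancel₀ hne, C_1]
  linear_combination C r⁻¹ * hab + h2

theorem scg : S_SCG := by
  intro F L _ _ _ _ _ f θ D hG h2 hD
  have hDF : (D : F) ≠ 0 := Nat.cast_ne_zero.2 hD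
  have hDL : (D : L) ≠ 0 := Nat.cast_ne_zero.2 hD
  have hn : f.natDegree = 3 := hG.deg
  have hm : (f.scaleRoots (D : 𝓞 F)).Monic := (monic_scaleRoots_iff _).2 hG.mon
  have hn' : (f.scaleRoots (D : 𝓞 F)).natDegree = 3 := by rw [natDegree_scaleRoots, hn]
  have c2 : (f.scaleRoots (D : 𝓞 F)).coeff 2 = 0 := by rw [coeff_scaleRoots, h2, zero_mul]
  have c1 : (f.scaleRoots (D : 𝓞 F)).coeff 1 = f.coeff 1 * (D : 𝓞 F) ^ 2 := by
    rw [coeff_scaleRoots, hn]
  have c0 : (f.scaleRoots (D : 𝓞 F)).coeff 0 = f.coeff 0 * (D : 𝓞 F) ^ 3 := by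
    rw [coeff_scaleRoots, hn]
  have d1 := dsc_cubic f hG.mon hn h2
  have d2 := dsc_cubic (f.scaleRoots (D : 𝓞 F)) hm hn' c2
  have d3 : dsc 1 (f.scaleRoots (D : 𝓞 F)) = (D : 𝓞 F) ^ 6 * dsc 1 f := by
    rw [d1, d2, c1, c0]; ring
  refine ⟨⟨hm, hn', ?_, hG.rank, ?_⟩, c2, c1, c0, ⟨1, Or.inl rfl, by rw [d1, one_mul]⟩, d3, ?_⟩
  · have h3 : fF (f.scaleRoots (D : 𝓞 F)) = (fF f).scaleRoots (D : F) := by
      have h4 := map_scaleRoots f (D : 𝓞 F) (algebraMap (𝓞 F) F) (by
        rw [hG.mon.leadingCoeff, map_one]; exact one_ne_zero)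
      have h5 : algebraMap (𝓞 F) F (D : 𝓞 F) = (D : F) := map_natCast _ D
      rw [h5] at h4
      exact h4
    rw [h3]
    have h6 := scaleRoots_aeval_eq_zero (r := (D : F)) hG.root
    rwa [map_natCast] at h6
  · intro x
    obtain ⟨c, hc⟩ := hG.gen x
    refine ⟨fun i => c i / (D : F) ^ (i : ℕ), ?_⟩
    rw [hc]
    refine Finset.sum_congr rfl fun i _ => ?_
    rw [map_div₀, map_pow, map_natCast, mul_pow]
    field_simp
  · intro w hw1 hw6 hw
    apply sep_of_dsc _ hn'
    rw [d3]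
    intro hmem
    rcases w.isPrime.mem_or_mem hmem with h | h
    · exact hw1 (w.isPrime.mem_of_pow_mem 6 h)
    · exact hw h

end Run7.h576.SR.SCG
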