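import Pool.Agent.Run7.h245.SR.Iface2

/-!
# SR, piece SCL: twists by squares (helper576 for helper245's project SR)
-/

set_option autoImplicit false
set_option linter.all false

open Polynomial

namespace Run7.h576.SR.SCL

open Pool.Agent.Run7.h245.SR
open Pool.Agent.N874.PM (PLoc)

theorem dvd_comp {E : Type} [Field E] (a b D : E) (hD : D ≠ 0) (p : E[X])
    (h : X ^ 3 + C a * X + C b ∣ p) :
    X ^ 3 + C (a * D ^ 2) * X + C (b * D ^ 3) ∣ p.comp (C D⁻¹ * X) := by
  obtain ⟨r, rfl⟩ := h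
  rw [mul_comp]
  apply Dvd.dvd.mul_right
  have e : (X ^ 3 + C a * X + C b : E[X]).comp (C D⁻¹ * X) =
      (X ^ 3 + C (a * D ^ 2) * X + C (b * D ^ 3)) * C (D⁻¹ ^ 3) := by
    have h1 : (C D : E[X]) * C D⁻¹ = 1 := by rw [← C_mul, mul_inv_cancel₀ hD, C_1]
    simp only [add_comp, mul_comp, pow_comp, X_comp, C_comp, C_mul, C_pow]
    linear_combination (-(C a * X * C D⁻¹ * (C D * C D⁻¹ + 1)) -
      C b * (C D ^ 2 * C D⁻¹ ^ 2 + C D * C D⁻¹ + 1)) * h1
  rw [e]
  exact Dvd.intro _ rfl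

theorem scl : S_SCL := by
  intro M E _ _ _ A B D δ h hD hδ hP
  have hD' : algebraMap M E D ≠ 0 := by
    rw [Ne, FaithfulSMul.algebraMap_eq_zero_iff]; exact hD
  have hδ0 : δ ≠ 0 := by
    rintro rfl
    apply hD'
    rw [hδ]; simp
  have hm : (h.comp (C D⁻¹ * X)).map (algebraMap M E) =
      (h.map (algebraMap M E)).comp (C (algebraMap M E D)⁻¹ * X) := by
    rw [map_comp]
    simp
  have hA : algebraMap M E (A * D ^ 2) = algebraMap M E A * algebraMap M E D ^ 2 := by simp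
  have hB : algebraMap M E (B * D ^ 3) = algebraMap M E B * algebraMap M E D ^ 3 := by simp
  unfold PLoc
  rw [hm, hA, hB]
  rcases hP with ⟨g, hg⟩ | ⟨x, y, hy, hxy, g, hg⟩
  · left
    refine ⟨g.comp (C (algebraMap M E D)⁻¹ * X), ?_⟩
    have := dvd_comp _ _ _ hD' _ hg
    rwa [sub_comp, pow_comp] at this
  · right
    refine ⟨δ ^ 2 * x, δ ^ 3 * y, mul_ne_zero (pow_ne_zero _ hδ0) hy, ?_,
      C δ * g.comp (C (algebraMap M E D)⁻¹ * X), ?_⟩
    · rw [hδ]
      linear_combination δ ^ 6 * hxy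
    · have h1 := dvd_comp _ _ _ hD' _ hg
      rw [sub_comp, mul_comp, sub_comp, C_comp, X_comp, pow_comp] at h1
      have h2 := Dvd.dvd.mul_left h1 (C (algebraMap M E D))
      refine h2.trans (dvd_of_eq ?_)
      have h3 : (C (algebraMap M E D) : E[X]) * C (algebraMap M E D)⁻¹ = 1 := by
        rw [← C_mul, mul_inv_cancel₀ hD', C_1]
      have h4 : (C (algebraMap M E D) : E[X]) = C δ ^ 2 := by rw [hδ, C_pow]
      rw [C_mul, C_pow]
      linear_combination (-(X * (h.map (algebraMap M E)).comp (C (algebraMap M E D)⁻¹ * X))) * h3 +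
        (C x * (h.map (algebraMap M E)).comp (C (algebraMap M E D)⁻¹ * X) -
          g.comp (C (algebraMap M E D)⁻¹ * X) ^ 2) * h4

end Run7.h576.SR.SCL
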